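import Pool.Agent.Q264.KS.Stm

set_option autoImplicit false

namespace Pool.Agent.Q71.KS.SEL

open Module Pool.Agent.Q264.KS

universe u

variable {X : Type u} [NormedAddCommGroup X] [NormedSpace ℝ X] [FiniteDimensional ℝ X]

lemma finrank_dual : finrank ℝ (X →L[ℝ] ℝ) = finrank ℝ X := by
  have h := LinearEquiv.finrank_eq
    (LinearMap.toContinuousLinearMap (𝕜 := ℝ) (E := X) (F' := ℝ))
  rw [← h]
  exact Subspace.dual_finrank_eq

/-- evaluation at `v` -/
def ev (v : X) : (X →L[ℝ] ℝ) →ₗ[ℝ] ℝ where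
  toFun g := g v
  map_add' _ _ := rfl
  map_smul' _ _ := rfl

instance fd : FiniteDimensional ℝ (X →L[ℝ] ℝ) :=
  LinearEquiv.finiteDimensional (LinearMap.toContinuousLinearMap (𝕜 := ℝ) (E := X) (F' := ℝ))

lemma exists_e (v : X) (M : Submodule ℝ (X →L[ℝ] ℝ)) (h : finrank ℝ M + 1 < finrank ℝ X) :
    ∃ e : X →L[ℝ] ℝ, e v = 0 ∧ e ∉ M := by
  by_contra hcon
  push Not at hcon
  have h1 : LinearMap.ker (ev v) ≤ M := fun g hg => hcon g hg
  have h2 : finrank ℝ (LinearMap.ker (ev v)) ≤ finrank ℝ M := Submodule.finrank_mono h1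
  have h3 := LinearMap.finrank_range_add_finrank_ker (ev v)
  rw [finrank_dual] at h3
  have h4 : finrank ℝ (LinearMap.range (ev v)) ≤ 1 := by
    have := Submodule.finrank_le (LinearMap.range (ev v))
    rwa [finrank_self] at this
  omega

theorem t_SEL : S_SEL.{u} := by
  intro hN hS X _ _ _ h2 hU v hv
  have : Nontrivial X := Module.nontrivial_of_finrank_pos (R := ℝ) (by omega)
  obtain ⟨g₀, hg0v, hg0n⟩ : ∃ g₀ : X →L[ℝ] ℝ, g₀ v = 0 ∧ ‖g₀‖ = 1 := by
    obtain ⟨e, he, he'⟩ := exists_e v (⊥ : Submodule ℝ (X →L[ℝ] ℝ)) (by rw [finrank_bot]; omega)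
    have hne : e ≠ 0 := by simpa using he'
    refine ⟨‖e‖⁻¹ • e, by simp [he], ?_⟩
    rw [norm_smul, norm_inv, norm_norm]
    exact inv_mul_cancel₀ (norm_ne_zero_iff.2 hne)
  have key : ∀ k : ℕ, k ≤ finrank ℝ X - 1 →
      ∃ (x : Fin k → X) (f : Fin k → X →L[ℝ] ℝ), (∀ i, ‖x i‖ = 1) ∧ (∀ i, f i (x i) = ‖f i‖) ∧
        (∀ i, f i v = 0) ∧ (∀ i, ‖f i - g₀‖ < 1 / 8) ∧ LinearIndependent ℝ f ∧
        LinearIndependent ℝ (Fin.cons v x : Fin (k + 1) → X) := by
    intro k
    induction k with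
    | zero =>
      intro _
      refine ⟨Fin.elim0, Fin.elim0, fun i => i.elim0, fun i => i.elim0, fun i => i.elim0,
        fun i => i.elim0, linearIndependent_empty_type, ?_⟩
      rw [linearIndependent_finCons]
      refine ⟨linearIndependent_empty_type, ?_⟩
      simpa using hv
    | succ k ih =>
      intro hk
      obtain ⟨x, f, h1, h2', h3, h4, h5, h6⟩ := ih (by omega)
      have hY : Submodule.span ℝ (Set.range (Fin.cons v x : Fin (k + 1) → X)) ≠ ⊤ := by
        intro hh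
        have := finrank_span_eq_card h6
        rw [hh, finrank_top, Fintype.card_fin] at this
        omega
      have hvY : v ∈ Submodule.span ℝ (Set.range (Fin.cons v x : Fin (k + 1) → X)) :=
        Submodule.subset_span ⟨0, by simp⟩
      have hM : finrank ℝ (Submodule.span ℝ (Set.range f)) = k := by
        rw [finrank_span_eq_card h5, Fintype.card_fin]
      obtain ⟨e, he, he'⟩ := exists_e v (Submodule.span ℝ (Set.range f)) (by omega)
      obtain ⟨g, x', k1, k2, k3, k4, k5, k6⟩ := hS hN X hU v _ _ e g₀ hvY hY he he' hg0v (1 / 8)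
        (by norm_num)
      refine ⟨Fin.snoc x x', Fin.snoc f g, ?_, ?_, ?_, ?_, ?_, ?_⟩
      · intro i
        refine Fin.lastCases ?_ (fun j => ?_) i
        · rw [Fin.snoc_last]; exact k5
        · rw [Fin.snoc_castSucc]; exact h1 j
      · intro i
        refine Fin.lastCases ?_ (fun j => ?_) i
        · rw [Fin.snoc_last, Fin.snoc_last]; exact k6
        · rw [Fin.snoc_castSucc, Fin.snoc_castSucc]; exact h2' j
      · intro i
        refine Fin.lastCases ?_ (fun j => ?_) i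
        · rw [Fin.snoc_last]; exact k1
        · rw [Fin.snoc_castSucc]; exact h3 j
      · intro i
        refine Fin.lastCases ?_ (fun j => ?_) i
        · rw [Fin.snoc_last]; exact k2
        · rw [Fin.snoc_castSucc]; exact h4 j
      · rw [linearIndependent_finSnoc]
        exact ⟨h5, k3⟩
      · rw [Fin.cons_snoc_eq_snoc_cons, linearIndependent_finSnoc]
        exact ⟨h6, k4⟩
  obtain ⟨x, f, h1, h2', h3, h4, h5, h6⟩ := key _ le_rfl
  rw [linearIndependent_finCons] at h6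
  refine ⟨x, f, h1, h2', h3, fun i j => ?_, h5, h6.1, h6.2⟩
  have e1 : ‖f i - f j‖ < 1 / 4 := by
    have : f i - f j = (f i - g₀) - (f j - g₀) := by abel
    rw [this]
    calc ‖(f i - g₀) - (f j - g₀)‖ ≤ ‖f i - g₀‖ + ‖f j - g₀‖ := norm_sub_le _ _
      _ < 1 / 4 := by linarith [h4 i, h4 j]
  have e2 : 7 / 8 < ‖f j‖ := by
    have : ‖g₀‖ ≤ ‖f j‖ + ‖f j - g₀‖ := by
      have h7 : g₀ = f j - (f j - g₀) := by abel
      calc ‖g₀‖ = ‖f j - (f j - g₀)‖ := by rw [← h7]
        _ ≤ ‖f j‖ + ‖f j - g₀‖ := norm_sub_le _ _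
    linarith [h4 j]
  have e3 : |(f i - f j) (x j)| ≤ ‖f i - f j‖ := by
    have := (f i - f j).le_opNorm (x j)
    rwa [h1 j, mul_one, Real.norm_eq_abs] at this
  have e4 := (abs_le.1 e3).1
  rw [sub_apply, h2' j] at e4
  linarith

end Pool.Agent.Q71.KS.SEL
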